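import Mathlib
import Pool.Agent.X4.VS.Main

set_option autoImplicit false

/-!
# Every length is the length of a shortest vanishing sum of units

For every integer `t ≠ 0, 1` there is a complex cubic number field `K` with
`ℓ(K) = 4 t ^ 4 - 4 t + 2`. Together with the known values this shows that every integer `k ≥ 3` is
`ℓ(K)` for some complex cubic field `K`.

The fields are generated by the roots `α` of `x³ + a x² + b x + 1` with `a ≥ 1`, `b ≥ 2 a + 3` and
`a² < 3 b`. If `α` generates the units up to sign then `ℓ(K) = 2 + a + b`. If it does not, then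
`α = - δ⁻ⁿ` for a unit `δ` and a prime `n`, and the two coefficients of the minimal polynomial of `δ`
determine `δ`, `n` and `a`, when `a + b` is given. There are fewer such coefficients than values of
`a` if `a + b + 2 > 2560000`; for the smaller values `4 t ^ 4 - 4 t + 2` one can take `a = 1`.
-/

namespace Pool.Agent.Results.MP_75c9b5_nt.EveryShortestLength

open NumberField Module Finset

/-- `od(K)`: the least odd `k ≥ 3` for which `K` has a vanishing unit sum of length `k`
(`⊤` if there is none). -/
noncomputable def od (K : Type) [Field K] [NumberField K] : ℕ∞ :=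
  ⨅ (k : ℕ) (_ : Odd k ∧ 3 ≤ k ∧ ∃ ε : Fin k → (𝓞 K)ˣ, ∑ i, (ε i : 𝓞 K) = 0), (k : ℕ∞)

/-- `ev(K)`: the least even `k ≥ 4` for which `K` has a vanishing unit sum of length `k` with no
proper vanishing subsum (`⊤` if there is none). -/
noncomputable def ev (K : Type) [Field K] [NumberField K] : ℕ∞ :=
  ⨅ (k : ℕ) (_ : Even k ∧ 4 ≤ k ∧ ∃ ε : Fin k → (𝓞 K)ˣ, ∑ i, (ε i : 𝓞 K) = 0 ∧
    ∀ I : Finset (Fin k), I.Nonempty → I ≠ univ → ∑ i ∈ I, (ε i : 𝓞 K) ≠ 0), (k : ℕ∞)

/-- `ℓ(K)`, the smaller one of `od(K)` and `ev(K)`. -/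
noncomputable def ell (K : Type) [Field K] [NumberField K] : ℕ∞ := min (od K) (ev K)

/-- **Main theorem.** For every integer `t` different from `0` and `1` there is a number field `K`
with `ℓ(K) = 4 t ^ 4 - 4 t + 2`; the field `K` can be taken to be a complex cubic field. -/
theorem result (t : ℤ) (h0 : t ≠ 0) (h1 : t ≠ 1) :
    ∃ (K : Type) (_ : Field K) (_ : NumberField K), finrank ℚ K = 3 ∧
      InfinitePlace.nrComplexPlaces K = 1 ∧ ell K = ((4 * t ^ 4 - 4 * t + 2).toNat : ℕ∞) :=
  Pool.Agent.X4.VS.main t h0 h1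

end Pool.Agent.Results.MP_75c9b5_nt.EveryShortestLength
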